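import Pool.Agent.helper20.SOL.SpecP

/-!
# Project sol (MP_cad530_co), row NSC: the set `NS` for generic graphs of type C
-/

set_option autoImplicit false

namespace Pool.Agent.SOL

open Finset

open scoped BigOperators

theorem NSC_cnt_neg {n : ℕ} (x : Vec n) (a : ℤ) : cnt (-x) a = cnt x a := by
  unfold cnt
  congr 1
  apply Finset.filter_congr
  intro i _
  rw [Pi.neg_apply, abs_neg]

theorem NSC_TD_neg {n t s : ℕ} {x : Vec n} (hx : x ∈ TD n t s) : -x ∈ TD n t s :=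
  ⟨fun i => by rw [Pi.neg_apply, abs_neg]; exact hx.1 i, by rw [NSC_cnt_neg]; exact hx.2.1,
    by rw [NSC_cnt_neg]; exact hx.2.2⟩

theorem NSC_even {n t : ℕ} {x : Vec n} (hx : x ∈ TD n t 0) (i : Fin n) : (2 : ℤ) ∣ x i := by
  have h1 := hx.1 i
  have h2 : |x i| ≠ 1 := by
    intro h
    have h3 := hx.2.2
    unfold cnt at h3
    rw [Finset.card_eq_zero] at h3
    have h4 : i ∈ (univ.filter fun i => |x i| = 1) := Finset.mem_filter.2 ⟨Finset.mem_univ i, h⟩
    rw [h3] at h4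
    exact absurd h4 (Finset.notMem_empty i)
  rw [abs_le] at h1
  have h3 : x i ≠ 1 := by
    intro h
    apply h2
    rw [h]
    rfl
  have h4 : x i ≠ -1 := by
    intro h
    apply h2
    rw [h]
    rfl
  omega

/-- Row NSC. -/
theorem NSC (hBTY : BTY_stmt) (hSHC : SHC_stmt) (hPC : PC_stmt) : NSC_stmt := by
  intro n k hG
  have hk : 1 ≤ k := hG.2.1
  have hsy : Sy (VC n k) := (hBTY.2.2.2.2.2.2.1 n k hk).2
  have h1 : NS (VC n k) = {x | x ∈ NI (VC n k) ∧ x ∈ TD n k 0} := by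
    ext x
    constructor
    · rintro ⟨hx, hE⟩
      refine ⟨hx, ?_⟩
      by_contra hcon
      obtain ⟨y, hy⟩ := hPC n k x hG hx.1 hcon
      exact hE y hy
    · rintro ⟨hx, hT⟩
      refine ⟨hx, ?_⟩
      rintro y ⟨-, hy, hxy, hS⟩
      have h2 := (hSHC n k x y hk hT hy hxy).1
      rw [hS] at h2
      exact h2
  have hneg : ∀ x ∈ NS (VC n k), -x ∈ NS (VC n k) := by
    intro x hx
    rw [h1] at hx ⊢
    obtain ⟨⟨hx1, y, hy, hxy⟩, hT⟩ := hx
    refine ⟨⟨hsy.neg x hx1, -y, hsy.neg y hy, ?_⟩, NSC_TD_neg hT⟩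
    have h2 := hsy.neg _ hxy
    rwa [neg_sub, show y - x = -x - -y by abel] at h2
  refine ⟨h1, hneg, ?_, ?_⟩
  · intro x hx y hy hxy
    rw [h1] at hx hy ⊢
    refine ⟨⟨hxy, x, hx.1.1, ?_⟩, (hSHC n k x y hk hx.2 hy.1.1 hxy).2 hy.2⟩
    have h2 := hsy.neg _ hy.1.1
    rwa [show -y = x - y - x by abel] at h2
  · refine ⟨hk, by norm_num, hneg, ?_, ?_, ?_⟩
    · intro x hx
      rw [h1] at hx
      have hT := hx.2
      rw [hBTY.2.2.1 n x hT.1, hT.2.1, hT.2.2]
      push_cast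
      ring
    · intro a ha b hb
      rw [h1] at ha hb
      unfold dp
      apply Finset.dvd_sum
      intro i _
      have h2 : (2 : ℤ) ∣ (a - b) i := by
        rw [Pi.sub_apply]
        exact dvd_sub (NSC_even ha.2 i) (NSC_even hb.2 i)
      have h3 := mul_dvd_mul h2 h2
      have h4 : (2 : ℤ) * 2 = ((4 : ℕ) : ℤ) := by norm_num
      rw [h4] at h3
      exact h3
    · exact ⟨⊤, fun _ _ => Submodule.mem_top, by rw [finrank_top, Module.finrank_fin_fun]⟩

end Pool.Agent.SOL
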